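import Pool.Agent.Y5.S3.Asm9

/-!
Finite-time blow-up for the three-dimensional periodic Navier-Stokes equations with the linear
dissipation `L = ν (-Δ)^α + D`, for all `1 ≤ α < 5/4`, where `D ≥ 0` is self-adjoint, at most of
the order of `(-Δ)^α` (`D ≤ C (-Δ)^α` for some `C`, and `D : H^(m + 2α) → H^m` for all `m`), and
`D ≤ δ (-Δ)^α'` for arbitrarily given `α' > α` and `δ > 0`. The nonlinearity is exactly that of
Navier-Stokes. For `α = 1` the linear dissipation is comparable to the Laplacian: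
`-ν Δ ≤ L ≤ -C' Δ`. Moreover `D` acts only on the modes with frequencies in `m ℤ³`, a proportion
`m⁻³` of all modes, `m` arbitrarily large: the frequencies of each `e i` are either all divisible by
`m`, or none of them is and `lam i` is the eigenvalue of `ν (-Δ)^α`.
-/

open Set

namespace Pool.Agent.Results.MP_6bf1e5_an.ComparableDissipation

open Pool.Agent.Y5 Pool.Agent.Y5.D Pool.Agent.Y5.E Pool.Agent.Y5.F Pool.Agent.Y5.G
open Pool.Agent.Y8.EP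

theorem result : ∀ (ν α α' δ : ℝ) (m₀ : ℕ), 0 < ν → 1 ≤ α → α < 5 / 4 → α < α' → 0 < δ →
    ∃ (m : ℕ) (ι : Type) (e : ι → E3 → E3) (lam : ι → ℝ) (T : ℝ) (u : ℝ → E3 → E3),
      0 < m ∧ m₀ ≤ m ∧
      (∀ i, (∀ k, cf (e i) k ≠ 0 → ∀ j, (m : ℤ) ∣ k j) ∨
        ∀ k, cf (e i) k ≠ 0 → (∃ j, ¬ (m : ℤ) ∣ k j) ∧
          lam i = ν * (2 * Real.pi * ‖vec k‖) ^ (2 * α)) ∧
      Diss6 ν α α' δ e lam ∧ 0 < T ∧ Sol2 e lam T u ∧ TP (u 0) ∧
      (∀ (T' : ℝ) (v : ℝ → E3 → E3), 0 < T' → Sol2 e lam T' v → v 0 = u 0 →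
        T' ≤ T ∧ ∀ t ∈ Ico 0 T', v t = u t) ∧
      (∀ t ∈ Ico 0 T, HasDerivWithinAt (fun τ => ip (u τ) (u τ))
        (-(2 * ∑' i, lam i * ip (u t) (e i) ^ 2)) (Ico 0 T) t) ∧
      ∀ M : ℝ, ∃ t ∈ Ico 0 T, ∃ y, M < ‖u t y‖ :=
  Pool.Agent.Y5.S3.t_MAIN9

end Pool.Agent.Results.MP_6bf1e5_an.ComparableDissipation
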