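import Pool.Agent.Y7.AN.Fin

/-!
The regularity scale of a solution of the three-dimensional Navier-Stokes equations, defined with
the bounds of a real analytic function (so that it is at most a constant times the radius of
analyticity), is integrable to the critical powers: to the power `-4` in space and time, and to
the power `-2`, for the vorticity, for the supremum in time along the paths of the particles. This
holds for all suitable weak periodic solutions, across the singular times, and for smooth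
solutions in the whole space, uniformly up to a possible blow-up time. In particular all
derivatives satisfy the strong type estimates at the scaling exponents (for example the second
derivatives of the velocity are in `L ^ (4 / 3)`, the third derivatives are in `L ^ 1`), with
explicit constants, the largest vorticity met by a particle is integrable, almost every particle
of a weak solution has exactly one path, and the particles that come within `r` of a singular
point have measure at most `C r ^ 2`.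

`V = Fin 3 → ℝ` with the maximum norm. See the claim file for the definitions.
-/

open MeasureTheory Set Metric
open scoped ENNReal

namespace Pool.Agent.Results.MP_6bf1e5_an.EndpointDerivatives

open H459R3.NS W221.NS Pool.Agent.Y8

/-- The vorticity of `v`, as the antisymmetric matrix `∂ᵢ vⱼ - ∂ⱼ vᵢ`. -/
noncomputable def vorticity (v : V → V) (x : V) : Fin 3 → Fin 3 → ℝ :=
  fun i j => fderiv ℝ v x (Pi.single i 1) j - fderiv ℝ v x (Pi.single j 1) i

/-- On the ball of radius `ρ` around `x` the derivative of order `n + j` of the field `w` has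
norm at most `C ^ (n + 1) * n! * ν / ρ ^ (n + 2)`, for every `n ≥ 0`. -/
def RegularBall {F : Type} [NormedAddCommGroup F] [NormedSpace ℝ F] (j : ℕ) (C ν : ℝ)
    (w : V → F) (x : V) (ρ : ℝ) : Prop :=
  0 < ρ ∧ ∀ y ∈ ball x ρ, ∀ n : ℕ,
    ‖iteratedFDeriv ℝ (n + j) w y‖ ≤ C ^ (n + 1) * n.factorial * ν / ρ ^ (n + 2)

/-- `1 / r(x) ^ m`, where the regularity scale `r(x)` is the supremum of the radii `ρ` of the
regular balls around `x`. -/
noncomputable def invScale {F : Type} [NormedAddCommGroup F] [NormedSpace ℝ F] (m j : ℕ)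
    (C ν : ℝ) (w : V → F) (x : V) : ℝ≥0∞ :=
  ⨅ ρ : ℝ, ⨅ _ : RegularBall j C ν w x ρ, ENNReal.ofReal (1 / ρ ^ m)

/-- `∫∫ |∇u|²` over the times in `(a, T)`. -/
noncomputable def dissipation (a T : ℝ) (u : ℝ → V → V) : ℝ≥0∞ :=
  ∫⁻ t in Ioo a T, ∫⁻ x, ENNReal.ofReal (‖fderiv ℝ (u t) x‖ ^ 2)

/-- The integral over `(0, T) × S` of the positive part of `r ^ (-4) - θ t`, where `r(t, x)` is
the regularity scale of `u t` at `x` (derivatives of the orders `n + 1`, `n ≥ 0`). -/
noncomputable def scaleInt (C ν T : ℝ) (u : ℝ → V → V) (θ : ℝ → ℝ) (S : Set V) : ℝ≥0∞ :=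
  ∫⁻ t in Ioo 0 T, ∫⁻ x in S, (invScale 4 1 C ν (u t) x - ENNReal.ofReal (θ t))

/-- The integral over `(t₀, T) × B` of the norm of the derivative of order `n + 1` of the
velocity to the power `4 / (n + 2)`. -/
noncomputable def derivInt (n : ℕ) (t₀ T : ℝ) (u : ℝ → V → V) (B : Set V) : ℝ≥0∞ :=
  ∫⁻ t in Ioo t₀ T, ∫⁻ x in B,
    ENNReal.ofReal (‖iteratedFDeriv ℝ (n + 1) (u t) x‖ ^ (4 / (n + 2) : ℝ))

/-- The integral over the particles `a ∈ S` of the supremum over the times `t ∈ J` of the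
positive part of `s ^ (-2) - θ t`, where `s` is the regularity scale of the vorticity
(derivatives of the orders `n ≥ 0`) at the time `t` and the position `X t a` of the particle. -/
noncomputable def pathScaleInt (C ν : ℝ) (J : Set ℝ) (u X : ℝ → V → V) (θ : ℝ → ℝ)
    (S : Set V) : ℝ≥0∞ :=
  ∫⁻ a in S, ⨆ t ∈ J, (invScale 2 0 C ν (vorticity (u t)) (X t a) - ENNReal.ofReal (θ t))

/-- The integral over the particles `a ∈ B` of the supremum over the times `t ∈ J` of the
norm of the derivative of order `n` of the vorticity, at the position of the particle, to the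
power `2 / (n + 2)`. -/
noncomputable def pathDerivInt (n : ℕ) (J : Set ℝ) (u X : ℝ → V → V) (B : Set V) : ℝ≥0∞ :=
  ∫⁻ a in B, ⨆ t ∈ J,
    ENNReal.ofReal (‖iteratedFDeriv ℝ n (vorticity (u t)) (X t a)‖ ^ (2 / (n + 2) : ℝ))

/-- `X t a` is the position at the time `t`, for `t₁ ≤ t < T`, of the particle which is at `a` at
the time `t₁`. -/
def IsFlow (u : ℝ → V → V) (t₁ T : ℝ) (X : ℝ → V → V) : Prop :=
  ∀ a, X t₁ a = a ∧ ContinuousOn (fun t => X t a) (Ico t₁ T) ∧
    ∀ t ∈ Ioo t₁ T, HasDerivAt (fun s => X s a) (u t (X t a)) t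

/-- `ξ` is a path of class `C¹` on `(0, T)` which follows the velocity at the times in `G`. -/
def IsPath (T : ℝ) (G : Set ℝ) (u : ℝ → V → V) (ξ : ℝ → V) : Prop :=
  ∃ ξ' : ℝ → V, ContinuousOn ξ' (Ioo 0 T) ∧ (∀ t ∈ Ioo 0 T, HasDerivAt ξ (ξ' t) t) ∧
    ∀ t ∈ G, ξ' t = u t (ξ t)

/-- The maps `X t`, `0 < t < T`, preserve the volume and commute with the translations by
integer vectors, and for almost every `a` the function `t ↦ X t a` is the only path with the
value `a` at the time `t₀`. -/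
structure IsWeakFlow (T : ℝ) (G : Set ℝ) (u : ℝ → V → V) (t₀ : ℝ) (X : ℝ → V → V) : Prop where
  label : ∀ a, X t₀ a = a
  measurable : ∀ t ∈ Ioo 0 T, Measurable (X t)
  preserving : ∀ t ∈ Ioo 0 T, Measure.map (X t) volume = volume
  periodic : ∀ t ∈ Ioo 0 T, ∀ (a : V) (n : Fin 3 → ℤ), X t (fun i => a i + n i)
    = fun i => X t a i + n i
  path : ∀ᵐ a, IsPath T G u fun t => X t a
  unique : ∀ᵐ a, ∀ ξ : ℝ → V, IsPath T G u ξ → ξ t₀ = a → ∀ t ∈ Ioo 0 T, ξ t = X t a

lemma rpow_bound {C₀ ν K : ℝ} {m n : ℕ} {c : ℝ} (hc : 1 ≤ c) (hν : 0 < ν) (hK : 0 < K)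
    (hKc : K ≤ c ^ (n + 1) * n.factorial) (hC₀ : 0 ≤ C₀) :
    C₀ * (K * ν) ^ (m / (n + 2) : ℝ) ≤ C₀ * c ^ m * (n + 1) ^ m * ν ^ (m / (n + 2) : ℝ) := by
  have h1 : K ≤ (c * (n + 1)) ^ (n + 2) := by
    refine hKc.trans ?_
    rw [mul_pow]
    apply mul_le_mul (pow_le_pow_right₀ hc (by omega)) _ (by positivity) (by positivity)
    have h2 : (n.factorial : ℝ) ≤ (n : ℝ) ^ n := by exact_mod_cast Nat.factorial_le_pow n
    have h3 : (n : ℝ) ^ n ≤ ((n : ℝ) + 1) ^ n := pow_le_pow_left₀ (by positivity) (by linarith) n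
    have h4 : ((n : ℝ) + 1) ^ n ≤ ((n : ℝ) + 1) ^ (n + 2) :=
      pow_le_pow_right₀ (by linarith [(Nat.cast_nonneg n : (0 : ℝ) ≤ n)]) (by omega)
    linarith
  have hn : (0 : ℝ) < (n : ℝ) + 2 := by positivity
  have h5 : K ^ (m / (n + 2) : ℝ) ≤ (c * (n + 1)) ^ m := by
    refine (Real.rpow_le_rpow hK.le h1 (by positivity)).trans (le_of_eq ?_)
    rw [← Real.rpow_natCast, ← Real.rpow_mul (by positivity)]
    have e : ((n + 2 : ℕ) : ℝ) * (m / (n + 2)) = m := by
      push_cast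
      field_simp
    rw [e, Real.rpow_natCast]
  rw [Real.mul_rpow hK.le hν.le]
  have h6 : 0 ≤ ν ^ (m / (n + 2) : ℝ) := Real.rpow_nonneg hν.le _
  calc C₀ * (K ^ (m / (n + 2) : ℝ) * ν ^ (m / (n + 2) : ℝ))
      ≤ C₀ * ((c * (n + 1)) ^ m * ν ^ (m / (n + 2) : ℝ)) := by gcongr
    _ = _ := by
      rw [mul_pow]
      ring

/-- There is an absolute constant `C` with the following properties. Let `r(t, x)` be the
regularity scale of `u t` at `x` (derivatives of order `n + 1`, `n ≥ 0`) and `s(t, x)` the one of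
the vorticity (derivatives of order `n`, `n ≥ 0`), with the analytic constants
`C ^ (n + 1) * n!`.

First, let `(u, p)` be a suitable weak `1`-periodic solution of the Navier-Stokes equations on
`(0, T)` with viscosity `ν`, smooth at the times in an open set `G` of full measure, with
`∫∫ |∇u|² ≤ D` over the unit cube. Then the integral of the positive part of
`r ^ (-4) - C (1 + (ν t) ^ (-2))` over `(0, T)` and the unit cube is at most `C D / ν²`, and for
every `n ≥ 0` and `t₀ > 0` the integral of the power `4 / (n + 2)` of the norm of the derivative of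
order `n + 1` of `u` over `(t₀, T)` and the unit cube is at most
`C (n + 1) ^ 4 ν ^ (4 / (n + 2)) (D / ν² + T + 1 / (ν² t₀))`. For every `t₀` in `(0, T)` there is a
flow `X` of measure-preserving maps, labelled at the time `t₀`; almost every particle has exactly
one path of class `C¹`, the one given by `X`. The integral over the unit cube of the supremum over
the times `t ∈ G` of the positive part of `s(t, X(t, a)) ^ (-2) - C (1 + 1 / (ν t))` is at most
`C D / ν`; for every `n ≥ 0` and `t₁ > 0` the supremum over `t ≥ t₁`, `t ∈ G`, of the power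
`2 / (n + 2)` of the norm of the derivative of order `n` of the vorticity at `(t, X(t, a))` has
integral at most `C (n + 1) ^ 2 ν ^ (2 / (n + 2)) (D / ν + 1 + 1 / (ν t₁))` over the unit cube; and
the particles in the unit cube that come within `δ` of a singular point after the time `t₁` have
measure at most `C δ² (D / ν + 1 + 1 / (ν t₁))`.

Second, let `(u, p)` be a smooth solution on `(0, T) × ℝ³` with `∫ |u|² ≤ E²` at all times. Then the
same estimates hold up to the time `T` (possibly a blow-up time), over the whole space, without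
the constant term, in terms of `∫∫ |∇u|²`; for the paths, which start at a time `t₁ > 0`, it is
assumed that this is finite. -/
theorem result : ∃ C : ℝ, 0 < C ∧
    -- suitable weak periodic solutions
    (∀ (ν T E D : ℝ) (G : Set ℝ) (u : ℝ → V → V) (p : ℝ → V → ℝ), 0 < ν → Turb ν T E D G u p →
      scaleInt C ν T u (fun t => C * (1 + 1 / (ν * t) ^ 2)) cube
        ≤ ENNReal.ofReal (C / ν ^ 2 * D) ∧
      (∀ (n : ℕ) (t₀ : ℝ), 0 < t₀ →
        derivInt n t₀ T u cube ≤ ENNReal.ofReal (C * (n + 1) ^ 4 * ν ^ (4 / (n + 2) : ℝ) *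
          (D / ν ^ 2 + T + 1 / (ν ^ 2 * t₀)))) ∧
      ∀ t₀ ∈ Ioo 0 T, ∃ X : ℝ → V → V, IsWeakFlow T G u t₀ X ∧
        pathScaleInt C ν G u X (fun t => C * (1 + 1 / (ν * t))) cube
          ≤ ENNReal.ofReal (C / ν * D) ∧
        (∀ (n : ℕ) (t₁ : ℝ), 0 < t₁ →
          pathDerivInt n (G ∩ Ici t₁) u X cube
            ≤ ENNReal.ofReal (C * (n + 1) ^ 2 * ν ^ (2 / (n + 2) : ℝ) *
              (D / ν + 1 + 1 / (ν * t₁)))) ∧
        ∀ t₁ δ : ℝ, 0 < t₁ → 0 < δ →
          volume {a ∈ cube | ∃ t ∈ Ioo t₁ T, ∃ x, SingPt G u t x ∧ ‖X t a - x‖ < δ}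
            ≤ ENNReal.ofReal (C * δ ^ 2 * (D / ν + 1 + 1 / (ν * t₁)))) ∧
    -- smooth solutions in the whole space
    ∀ (ν T E : ℝ) (u : ℝ → V → V) (p : ℝ → V → ℝ), 0 < ν → 0 ≤ E → OSol ν T E univ u p →
      scaleInt C ν T u (fun t => C / (ν * t) ^ 2) univ
        ≤ ENNReal.ofReal (C / ν ^ 2) * dissipation 0 T u ∧
      (∀ (n : ℕ) (t₀ : ℝ) (B : Set V), 0 < t₀ →
        derivInt n t₀ T u B
          ≤ ENNReal.ofReal (C / ν ^ 2 * (n + 1) ^ 4 * ν ^ (4 / (n + 2) : ℝ)) *
            (dissipation 0 T u + ENNReal.ofReal (1 / t₀) * volume B)) ∧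
      (dissipation 0 T u ≠ ⊤ → ∀ t₁ ∈ Ioo 0 T, ∃ X : ℝ → V → V, IsFlow u t₁ T X ∧
        pathScaleInt C ν (Ioo t₁ T) u X (fun t => C / (ν * (t - t₁))) univ
          ≤ ENNReal.ofReal (C / ν) * dissipation t₁ T u ∧
        ∀ (n : ℕ) (t₀ : ℝ) (B : Set V), t₁ < t₀ →
          pathDerivInt n (Ico t₀ T) u X B
            ≤ ENNReal.ofReal (C / ν * (n + 1) ^ 2 * ν ^ (2 / (n + 2) : ℝ)) *
              (dissipation t₁ T u + ENNReal.ofReal (1 / (t₀ - t₁)) * volume B)) := by
  obtain ⟨Ca, hCa, Ka, hKa, Ha⟩ := Pool.Agent.Y7.weakFA Pool.Agent.Y7.a_wderp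
  obtain ⟨Cb, Kb, hCb, hKb, Hb⟩ :=
    Pool.Agent.Y7.wlagNA (Pool.Agent.Y7.t_WLAGP Pool.Agent.Y7.a_wderp)
  obtain ⟨C₀, ⟨hC₀, hCC⟩, K, ⟨hK, hKab⟩, H₁⟩ := Pool.Agent.Y7.final9A Pool.Agent.Y7.a_locp
    (Ca + Cb) (by positivity) (fun n => Ka n + Kb n) (hKa.add hKb)
  obtain ⟨hK0, c, hc, hKc⟩ := hK
  have hc0 : 0 < c := by linarith
  have hc2 : c ≤ c ^ 2 := by nlinarith
  have hc24 : c ^ 2 ≤ c ^ 4 := pow_le_pow_right₀ hc (by norm_num)
  have h1c2 : 1 ≤ c ^ 2 := one_le_pow₀ hc
  obtain ⟨C, hCd⟩ : ∃ C, C = (C₀ + 1) * c ^ 4 := ⟨_, rfl⟩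
  have hC : 0 < C := by rw [hCd]; positivity
  have hC4 : C₀ * c ^ 4 ≤ C := by
    rw [hCd]
    nlinarith [show 0 < c ^ 4 by positivity]
  have hC2 : C₀ * c ^ 2 ≤ C := le_trans (mul_le_mul_of_nonneg_left hc24 hC₀.le) hC4
  have hC1 : C₀ ≤ C := le_trans (le_mul_of_one_le_right hC₀.le h1c2) hC2
  have hcC : c ≤ C := by
    rw [hCd]
    nlinarith [show 0 < C₀ * c ^ 4 by positivity]
  have hCa' : Ca ≤ C := by linarith
  have hCb' : Cb ≤ C := by linarith
  obtain ⟨K', hK'⟩ : ∃ K' : ℕ → ℝ, K' = fun n : ℕ => C ^ (n + 1) * (n.factorial : ℝ) := ⟨_, rfl⟩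
  have hKK' : ∀ n, K n ≤ K' n := fun n => by
    rw [hK']
    refine (hKc n).trans ?_
    show c ^ (n + 1) * (n.factorial : ℝ) ≤ C ^ (n + 1) * n.factorial
    gcongr
  have hKa1 : ∀ n, Ka n ≤ K n := fun n => by
    have := hKab n
    have := hKb.1 n
    linarith
  have hKb1 : ∀ n, Kb n ≤ K n := fun n => by
    have := hKab n
    have := hKa.1 n
    linarith
  have e4 : ∀ (v : V → V) (ν : ℝ) (x : V), invScale 4 1 C ν v x
      = Pool.Agent.Y7.invSc 4 1 K' ν v x := fun v ν x => by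
    rw [hK']
    rfl
  have e2 : ∀ (v : V → V) (ν : ℝ) (x : V), invScale 2 0 C ν (vorticity v) x
      = Pool.Agent.Y7.invSc 2 0 K' ν (Pool.Agent.Y7.vort v) x := fun v ν x => by
    rw [hK']
    rfl
  have b4 : ∀ (ν C₁ : ℝ) (n : ℕ), 0 < ν → 0 ≤ C₁ → C₁ * (K n * ν) ^ (4 / (n + 2) : ℝ)
      ≤ C₁ * c ^ 4 * (n + 1) ^ 4 * ν ^ (4 / (n + 2) : ℝ) := fun ν C₁ n hν hC₁ => by
    have := rpow_bound (m := 4) hc hν (hK0 n) (hKc n) hC₁
    exact_mod_cast this
  have b2 : ∀ (ν C₁ : ℝ) (n : ℕ), 0 < ν → 0 ≤ C₁ → C₁ * (K n * ν) ^ (2 / (n + 2) : ℝ)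
      ≤ C₁ * c ^ 2 * (n + 1) ^ 2 * ν ^ (2 / (n + 2) : ℝ) := fun ν C₁ n hν hC₁ => by
    have := rpow_bound (m := 2) hc hν (hK0 n) (hKc n) hC₁
    exact_mod_cast this
  refine ⟨C, hC, ?_, ?_⟩
  · intro ν T E D G u p hν hN
    have hD0 : 0 ≤ D := (setIntegral_nonneg hN.openG.measurableSet
      fun t _ => Pool.Agent.Y7.enst_nn _).trans hN.enst_le
    obtain ⟨h1, h2⟩ := Ha ν T E D G u p hν hN
    refine ⟨?_, ?_, ?_⟩
    · refine le_trans ?_ (h1.trans (ENNReal.ofReal_le_ofReal (by gcongr)))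
      refine lintegral_mono fun t => lintegral_mono fun x => ?_
      rw [e4]
      refine tsub_le_tsub (Pool.Agent.Y7.invSc_mono (fun n => (hKa1 n).trans (hKK' n)) hν _ _)
        (ENNReal.ofReal_le_ofReal ?_)
      show Ca * (1 + 1 / (ν * t) ^ 2) ≤ C * (1 + 1 / (ν * t) ^ 2)
      gcongr
    · intro n t₀ ht₀
      rcases le_or_gt T t₀ with hT | hT
      · unfold derivInt
        rw [Ioo_eq_empty (not_lt.2 hT)]
        simp
      have hT0 : 0 < T := ht₀.trans hT
      refine (h2 n t₀ ht₀).trans (ENNReal.ofReal_le_ofReal ?_)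
      apply mul_le_mul_of_nonneg_right _ (by positivity)
      have hKn := hKa1 n
      have hKn0 := hKa.1 n
      have hCa0 : Ca ≤ C₀ := by linarith
      calc Ca * (Ka n * ν) ^ (4 / (n + 2) : ℝ) ≤ C₀ * (K n * ν) ^ (4 / (n + 2) : ℝ) := by gcongr
        _ ≤ C₀ * c ^ 4 * (n + 1) ^ 4 * ν ^ (4 / (n + 2) : ℝ) := b4 ν C₀ n hν hC₀.le
        _ ≤ C * (n + 1) ^ 4 * ν ^ (4 / (n + 2) : ℝ) := by gcongr
    · intro t₀ ht₀
      obtain ⟨X, g1, g2, g3, g4, g5, g6⟩ := Hb ν T E D G u p hν hN t₀ ht₀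
      refine ⟨X, ⟨g1, fun t ht => (g2 t ht).1, fun t ht => (g2 t ht).2.1, ?_,
        g3.mono fun a ha => ha.1, g3.mono fun a ha => ha.2⟩, ?_, ?_, ?_⟩
      · intro t ht a n
        have h3 := (g2 t ht).2.2 a (-n)
        have e : ∀ b : V, b - Pool.Agent.TH305.LG.iv (-n) = fun i => b i + n i := by
          intro b
          funext i
          simp [Pool.Agent.TH305.LG.iv]
        rw [e, e] at h3
        exact h3
      · refine le_trans ?_ (g4.trans (ENNReal.ofReal_le_ofReal (by gcongr)))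
        refine lintegral_mono fun a => iSup₂_mono fun t ht => ?_
        rw [e2]
        refine tsub_le_tsub (Pool.Agent.Y7.invSc_mono (fun n => (hKb1 n).trans (hKK' n)) hν _ _)
          (ENNReal.ofReal_le_ofReal ?_)
        show Cb * (1 + 1 / (ν * t)) ≤ C * (1 + 1 / (ν * t))
        have : 0 < ν * t := mul_pos hν (hN.subG ht).1
        gcongr
      · intro n t₁ ht₁
        have hKn := hKb1 n
        have hKn0 := hKb.1 n
        have hCb0 : Cb ≤ C₀ := by linarith
        refine (g5 n t₁ ht₁).trans (ENNReal.ofReal_le_ofReal ?_)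
        apply mul_le_mul_of_nonneg_right _ (by positivity)
        calc Cb * (Kb n * ν) ^ (2 / (n + 2) : ℝ) ≤ C₀ * (K n * ν) ^ (2 / (n + 2) : ℝ) := by gcongr
          _ ≤ C₀ * c ^ 2 * (n + 1) ^ 2 * ν ^ (2 / (n + 2) : ℝ) := b2 ν C₀ n hν hC₀.le
          _ ≤ C * (n + 1) ^ 2 * ν ^ (2 / (n + 2) : ℝ) := by gcongr
      · intro t₁ r ht₁ hr
        refine (g6 t₁ r ht₁ hr).trans (ENNReal.ofReal_le_ofReal ?_)
        gcongr
  · intro ν T E u p hν hE hS
    obtain ⟨h1, h2, h3⟩ := H₁ ν T E u p hν hE hS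
    refine ⟨?_, ?_, ?_⟩
    · refine le_trans ?_ (h1.trans (mul_le_mul_left (ENNReal.ofReal_le_ofReal (by gcongr)) _))
      unfold scaleInt
      simp only [setLIntegral_univ]
      refine setLIntegral_mono' measurableSet_Ioo fun t ht => lintegral_mono fun x => ?_
      rw [e4]
      refine tsub_le_tsub (Pool.Agent.Y7.invSc_mono hKK' hν _ _) (ENNReal.ofReal_le_ofReal ?_)
      have : 0 < ν * t := mul_pos hν ht.1
      gcongr
    · intro n t₀ B ht₀
      refine (h2 n t₀ B ht₀).trans (mul_le_mul_left (ENNReal.ofReal_le_ofReal ?_) _)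
      refine (b4 ν (C₀ / ν ^ 2) n hν (by positivity)).trans ?_
      have : C₀ / ν ^ 2 * c ^ 4 = C₀ * c ^ 4 / ν ^ 2 := by ring
      rw [this]
      gcongr
    · intro hD t₁ ht₁
      obtain ⟨X, hX0, hX1, h4, h5⟩ := h3 hD t₁ ht₁
      refine ⟨X, fun a => ⟨hX0 a, (hX1 a).cont, (hX1 a).ode⟩, ?_, ?_⟩
      · refine le_trans ?_ (h4.trans (mul_le_mul_left (ENNReal.ofReal_le_ofReal (by gcongr)) _))
        unfold pathScaleInt
        rw [setLIntegral_univ]
        refine lintegral_mono fun a => iSup₂_mono fun t ht => ?_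
        rw [e2]
        refine tsub_le_tsub (Pool.Agent.Y7.invSc_mono hKK' hν _ _) (ENNReal.ofReal_le_ofReal ?_)
        have : 0 < ν * (t - t₁) := mul_pos hν (by linarith [ht.1])
        show C₀ / (ν * (t - t₁)) ≤ C / (ν * (t - t₁))
        gcongr
      · intro n t₀ B ht₀
        refine (h5 n t₀ B ht₀).trans (mul_le_mul_left (ENNReal.ofReal_le_ofReal ?_) _)
        refine (b2 ν (C₀ / ν) n hν (by positivity)).trans ?_
        have : C₀ / ν * c ^ 2 = C₀ * c ^ 2 / ν := by ring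
        rw [this]
        gcongr

end Pool.Agent.Results.MP_6bf1e5_an.EndpointDerivatives
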