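import Pool.Agent.Y8.FB.Content
import Pool.Agent.Y8.FB.Past

/-!
The number of separated singular points of a suitable weak periodic solution of the Navier-Stokes
equations (Leray solution satisfying the local energy inequality): exponent `1` in the parabolic
metric which moves with the fluid and at fixed times, exponent `25 / 23` in the parabolic metric.
See the claim file for the definitions.
-/

open MeasureTheory Set Metric
open scoped ContDiff

namespace Pool.Agent.Results.MP_6bf1e5_an.SingularPointCount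

open H459R3.NS W221.NS Pool.Agent.Y8 Pool.Agent.Y8.FB

/-- There are absolute constants `C` and `δ` such that for every suitable weak periodic solution with
viscosity `ν` and energy at most `E²`, every `r` with `(1 + (E / ν)²) r ≤ δ` and every finite set `S`
of singular points (with times in `(r² / ν, T - r² / ν)`): if `S` is separated in the parabolic metric
which moves with the fluid, then the number of its points times `r` is at most `C / ν` times the
dissipation in the moving neighbourhood of `S`, which is at most `C` times the dissipation at the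
times within `3 r² / ν` of those of `S`; if all points of `S` have the time `t₀` and distances at
least `r`, then the number times `r` is at most `C / ν` times the dissipation in
`(t₀ - r² / ν, t₀)`; if `S` is separated in the parabolic metric, then there is an additional factor
`1 + (E² / (ν² r)) ^ (2 / 23)`. Therefore the corresponding Minkowski contents, of dimensions `1` and
`25 / 23`, of the singular set in `[a, b] × cube` vanish. -/
theorem result : (∃ C δ : ℝ, 0 < C ∧ 0 < δ ∧
    ∀ (ν T E D : ℝ) (G : Set ℝ) (u : ℝ → V → V) (p : ℝ → V → ℝ), 0 < ν → Turb ν T E D G u p →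
      ∀ r : ℝ, 0 < r → (1 + (E / ν) ^ 2) * r ≤ δ → ∀ S : Finset (ℝ × V),
        (∀ z ∈ S, r ^ 2 < ν * z.1 ∧ ν * z.1 + r ^ 2 < ν * T ∧ z.2 ∈ cube ∧ SingPt G u z.1 z.2) →
          (MovSep ν T r G u S → S.card * r ≤ C / ν * disN ν T r G u S) ∧
          disN ν T r G u S ≤ C * disT ν T r u S ∧
          (∀ t₀ : ℝ, (∀ z ∈ S, z.1 = t₀) → (∀ z ∈ S, ∀ w ∈ S, z ≠ w → r ≤ ‖z.2 - w.2‖) →
            S.card * r ≤ C / ν * ∫ t in Ioo (t₀ - r ^ 2 / ν) t₀, enstrophy (u t)) ∧
          (SepN ν r S → S.card * r ≤ C / ν * ((1 + ((E / ν) ^ 2 / r) ^ (2 / 23 : ℝ)) *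
            disT ν T r u S))) ∧
    ∀ (ν T E D : ℝ) (G : Set ℝ) (u : ℝ → V → V) (p : ℝ → V → ℝ), 0 < ν → Turb ν T E D G u p →
      ∀ a b ε : ℝ, 0 < a → b < T → 0 < ε → ∃ r₀ : ℝ, 0 < r₀ ∧
        ∀ r : ℝ, 0 < r → r < r₀ → ∀ S : Finset (ℝ × V),
          (∀ z ∈ S, z.1 ∈ Icc a b ∧ z.2 ∈ cube ∧ SingPt G u z.1 z.2) →
            (MovSep ν T r G u S → S.card * r ≤ ε) ∧
            (SepN ν r S → S.card * r ^ (25 / 23 : ℝ) ≤ ε) := by
  refine ⟨?_, p_con⟩
  obtain ⟨C₁, δ₁, hC₁, hδ₁, h₁⟩ := p_fb
  obtain ⟨C₂, δ₂, hC₂, hδ₂, h₂⟩ := p_pst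
  refine ⟨C₁ + C₂, min δ₁ δ₂, by positivity, lt_min hδ₁ hδ₂,
    fun ν T E D G u p hν hT r hr hrδ S hS => ?_⟩
  obtain ⟨k1, k2, k3⟩ := h₁ ν T E D G u p hν hT r hr (hrδ.trans (min_le_left _ _)) S hS
  have hT0 : 0 ≤ disT ν T r u S := integral_nonneg fun t => enst_nn _
  have hN0 : 0 ≤ disN ν T r G u S := by
    refine integral_nonneg fun t => ?_
    exact integral_nonneg fun x => gsq_nn _ _
  have hP : 0 ≤ ((E / ν) ^ 2 / r) ^ (2 / 23 : ℝ) := by positivity
  refine ⟨fun hs => (k1 hs).trans ?_, k2.trans ?_, ?_, fun hs => (k3 hs).trans ?_⟩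
  · gcongr
    linarith
  · gcongr
    linarith
  · intro t₀ ht₀ hsep
    rcases S.eq_empty_or_nonempty with rfl | ⟨z₀, hz₀⟩
    · simp only [Finset.card_empty, Nat.cast_zero, zero_mul]
      have : 0 ≤ ∫ t in Ioo (t₀ - r ^ 2 / ν) t₀, enstrophy (u t) :=
        integral_nonneg fun t => enst_nn _
      positivity
    · classical
      have hinj : Set.InjOn Prod.snd (S : Set (ℝ × V)) := by
        intro z hz w hw e
        exact Prod.ext ((ht₀ z hz).trans (ht₀ w hw).symm) e
      have hcard : (S.image Prod.snd).card = S.card := Finset.card_image_of_injOn hinj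
      have h3 := hS z₀ hz₀
      rw [ht₀ z₀ hz₀] at h3
      have h4 : t₀ < T := by
        have : ν * t₀ < ν * T := by linarith [h3.2.1, sq_nonneg r]
        exact lt_of_mul_lt_mul_left this hν.le
      have key := h₂ ν T E D G u p hν hT r t₀ hr (hrδ.trans (min_le_right _ _)) h3.1 h4
        (S.image Prod.snd) (by
          intro x hx
          obtain ⟨z, hz, rfl⟩ := Finset.mem_image.1 hx
          have h5 := (hS z hz).2.2
          rw [ht₀ z hz] at h5
          exact h5) (by
          intro x hx y hy hxy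
          obtain ⟨z, hz, rfl⟩ := Finset.mem_image.1 hx
          obtain ⟨w, hw, rfl⟩ := Finset.mem_image.1 hy
          exact hsep z hz w hw fun e => hxy (by rw [e]))
      rw [hcard] at key
      refine key.trans ?_
      have : 0 ≤ ∫ t in Ioo (t₀ - r ^ 2 / ν) t₀, enstrophy (u t) :=
        integral_nonneg fun t => enst_nn _
      gcongr
      linarith
  · gcongr
    linarith

end Pool.Agent.Results.MP_6bf1e5_an.SingularPointCount
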