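import Pool.Agent.Y5.S2.Asm8

/-!
For all `ν, ε, δ > 0`: finite-time blow-up for the three-dimensional periodic Navier-Stokes
equations with an additional linear term `A u`, where `A` is skew-adjoint, of order 2, and small,
`|⟨A v, w⟩| ≤ δ ‖v‖_(1+ε) ‖w‖_(1+ε)` (the nonlinearity and the viscous term `ν Δ` are exactly those
of the Navier-Stokes equations, and the energy identity is exactly the same). Moreover `A` acts only
on the modes with frequencies in `m ℤ³`, a proportion `m⁻³` of all modes, `m` arbitrarily large: if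
`s i ≠ 0`, then all frequencies of `e i` (and of `e (σ i)`, since `s (σ i) = -s i`) are divisible by
`m`. The blow-up is of Type I, and the critical norm `B^(1/2)_(2,∞)` stays bounded.
-/

open Set

namespace Pool.Agent.Results.MP_6bf1e5_an.SkewOrderTwo

open Pool.Agent.Y5 Pool.Agent.Y5.D Pool.Agent.Y5.E Pool.Agent.Y6.N Pool.Agent.Y5.S2

theorem result : ∀ (ν ε δ : ℝ) (m₀ : ℕ), 0 < ν → 0 < ε → 0 < δ →
    ∃ (m : ℕ) (ι : Type) (e : ι → E3 → E3) (σ : ι → ι) (s : ι → ℝ) (T : ℝ) (u : ℝ → E3 → E3),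
      0 < m ∧ m₀ ≤ m ∧ (∀ i, s i ≠ 0 → ∀ k, cf (e i) k ≠ 0 → ∀ j, (m : ℤ) ∣ k j) ∧
      Skew e σ s ∧ Ord3 ε δ e σ s ∧ 0 < T ∧ SolN ν e σ s T u ∧ TP (u 0) ∧
      (∀ (T' : ℝ) (v : ℝ → E3 → E3), 0 < T' → SolN ν e σ s T' v → v 0 = u 0 →
        T' ≤ T ∧ ∀ t ∈ Ico 0 T', v t = u t) ∧
      (∀ t ∈ Ico 0 T, HasDerivWithinAt (fun τ => ip (u τ) (u τ)) (-(2 * (ν * dir (u t))))
        (Ico 0 T) t) ∧
      (∀ M : ℝ, ∃ t ∈ Ico 0 T, ∃ y, M < ‖u t y‖) ∧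
      (∃ X : ℝ, ∀ t ∈ Ico 0 T, ∀ y, ‖u t y‖ * √(T - t) ≤ X) ∧
      ∃ X : ℝ, ∀ t ∈ Ico 0 T, ∀ K : ℝ, 0 < K → K * hf K (cf (u t)) ≤ X :=
  t_MAIN8

end Pool.Agent.Results.MP_6bf1e5_an.SkewOrderTwo
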